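import Pool.Agent.H37.CTO.Stmts

/-!
# The coefficients of the additive polynomial of a span, for the rows `P53`, `R53`
-/

set_option autoImplicit false

namespace Pool.CND

open Finset Polynomial

namespace R53a

variable {F L : Type} [Field F] [Field L]

theorem fprod1 (φ : F →+* L) [Fintype F] {q : ℕ} (hF : Fintype.card F = q) (x : L) :
    ∏ d : F, (x + φ d) = x ^ q - x := by
  classical
  have h1 : (Polynomial.X ^ q - Polynomial.X : F[X]) = ∏ d : F, (Polynomial.X - Polynomial.C d) := by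
    have hr := FiniteField.roots_X_pow_card_sub_X F
    have hq : 1 < q := by
      rw [← hF]
      exact Fintype.one_lt_card
    have hd := FiniteField.X_pow_card_sub_X_natDegree_eq F hq
    have hm : (Polynomial.X ^ q - Polynomial.X : F[X]).Monic := by
      apply Polynomial.monic_X_pow_sub
      rw [Polynomial.degree_X]
      exact_mod_cast hq
    rw [hF] at hr
    have h2 := Polynomial.prod_multiset_X_sub_C_of_monic_of_roots_card_eq hm (by
      rw [hr, hd]
      exact hF)
    rw [hr] at h2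
    exact h2.symm
  have h2 := congrArg (fun P : F[X] => (P.map φ).eval x) h1
  simp only [Polynomial.map_sub, Polynomial.map_pow, Polynomial.map_X, Polynomial.map_prod,
    Polynomial.map_C, Polynomial.eval_sub, Polynomial.eval_pow, Polynomial.eval_X,
    Polynomial.eval_prod, Polynomial.eval_C] at h2
  rw [h2, ← Equiv.prod_comp (Equiv.neg F)]
  refine prod_congr rfl fun d _ => ?_
  rw [Equiv.neg_apply, map_neg, sub_eq_add_neg]

theorem fprod (φ : F →+* L) [Fintype F] {q : ℕ} (hF : Fintype.card F = q) (A B : L) :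
    ∏ d : F, (A + φ d * B) = A ^ q - B ^ (q - 1) * A := by
  have hq : 1 < q := by
    rw [← hF]
    exact Fintype.one_lt_card
  by_cases hB : B = 0
  · rw [hB, zero_pow (by omega)]
    simp [hF]
  · have h1 : ∀ d : F, A + φ d * B = B * (A / B + φ d) := fun d => by
      field_simp
    rw [prod_congr rfl fun d _ => h1 d, prod_mul_distrib, fprod1 φ hF, prod_const, card_univ, hF]
    obtain ⟨r, rfl⟩ : ∃ r, q = r + 1 := ⟨q - 1, by omega⟩
    rw [Nat.add_sub_cancel, div_pow, mul_sub, mul_div_cancel₀ _ (pow_ne_zero _ hB)]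
    congr 1
    field_simp
    ring

/-- products over `Fin (m + 1) → F` -/
theorem split_last (φ : F →+* L) [Fintype F] {m : ℕ} (v : Fin (m + 1) → L) (x : L) :
    ∏ c : Fin (m + 1) → F, (x + ∑ l, φ (c l) * v l) =
      ∏ d : F, ∏ c : Fin m → F, (x + φ d * v (Fin.last m) + ∑ l, φ (c l) * v l.castSucc) := by
  rw [← (Fin.snocEquiv fun _ => F).prod_comp, Fintype.prod_prod_type]
  refine prod_congr rfl fun d _ => prod_congr rfl fun c _ => ?_
  rw [Fin.sum_univ_castSucc]
  simp only [Fin.snocEquiv_apply, Fin.snoc_castSucc, Fin.snoc_last]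
  ring

/-- products over `Fin (m + 1) → F` -/
theorem split_first (φ : F →+* L) [Fintype F] {m : ℕ} (v : Fin (m + 1) → L) (x : L) :
    ∏ c : Fin (m + 1) → F, (x + ∑ l, φ (c l) * v l) =
      ∏ c : Fin m → F, ∏ d : F, (x + ∑ l, φ (c l) * v l.succ + φ d * v 0) := by
  rw [← (Fin.consEquiv fun _ => F).prod_comp, Fintype.prod_prod_type_right]
  refine prod_congr rfl fun d _ => prod_congr rfl fun c _ => ?_
  rw [Fin.sum_univ_succ]
  simp only [Fin.consEquiv_apply, Fin.cons_succ, Fin.cons_zero]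
  ring

section

variable (φ : F →+* L) [Fintype F] {p f q : ℕ}

theorem frob (hp : p.Prime) [CharP L p] (hq : q = p ^ f) (i : ℕ) (x y : L) :
    (x + y) ^ q ^ i = x ^ q ^ i + y ^ q ^ i := by
  have : Fact p.Prime := ⟨hp⟩
  rw [hq, ← pow_mul]
  exact add_pow_char_pow x y p (f * i)

theorem frob1 (hp : p.Prime) [CharP L p] (hq : q = p ^ f) (x y : L) :
    (x + y) ^ q = x ^ q + y ^ q := by
  have h := frob hp hq 1 x y
  rwa [pow_one] at h

theorem fix (hF : Fintype.card F = q) (i : ℕ) (c : F) : φ c ^ q ^ i = φ c := by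
  have hpow : ∀ a : F, a ^ q = a := by
    intro a
    rw [← hF]
    exact FiniteField.pow_card a
  induction i with
  | zero => simp
  | succ i ih => rw [pow_succ, pow_mul, ih, ← map_pow, hpow]

/-- additive polynomials -/
theorem lin (hp : p.Prime) [CharP L p] (hq : q = p ^ f) (hF : Fintype.card F = q) (N : ℕ)
    (r : ℕ → L) (x y : L) (c : F) : ∑ j ∈ range N, r j * (x + φ c * y) ^ q ^ j =
      ∑ j ∈ range N, r j * x ^ q ^ j + φ c * ∑ j ∈ range N, r j * y ^ q ^ j := by
  rw [mul_sum, ← sum_add_distrib]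
  refine sum_congr rfl fun j _ => ?_
  rw [frob hp hq, mul_pow, fix φ hF]
  ring

theorem psum (hp : p.Prime) [CharP L p] (hq : q = p ^ f) (N : ℕ) (g : ℕ → L) :
    (∑ j ∈ range N, g j) ^ q = ∑ j ∈ range N, g j ^ q := by
  have hq0 : q ≠ 0 := by
    rw [hq]
    exact pow_ne_zero _ hp.ne_zero
  induction N with
  | zero => simp [hq0]
  | succ N ih => rw [sum_range_succ, sum_range_succ, frob1 hp hq, ih]

/-- one more vector -/
theorem step (hp : p.Prime) [CharP L p] (hq : q = p ^ f) (hF : Fintype.card F = q) {m : ℕ}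
    (v : Fin (m + 1) → L) (r : ℕ → L)
    (hr : ∀ x, ∏ c : Fin m → F, (x + ∑ l, φ (c l) * v l.castSucc) =
      ∑ j ∈ range (m + 1), r j * x ^ q ^ j) (x : L) :
    ∏ c : Fin (m + 1) → F, (x + ∑ l, φ (c l) * v l) =
      ∑ j ∈ range (m + 1), r j ^ q * x ^ q ^ (j + 1) -
        (∑ j ∈ range (m + 1), r j * v (Fin.last m) ^ q ^ j) ^ (q - 1) *
          ∑ j ∈ range (m + 1), r j * x ^ q ^ j := by
  rw [split_last]
  have h1 : ∀ d : F, ∏ c : Fin m → F,
      (x + φ d * v (Fin.last m) + ∑ l, φ (c l) * v l.castSucc) =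
      ∑ j ∈ range (m + 1), r j * x ^ q ^ j +
        φ d * ∑ j ∈ range (m + 1), r j * v (Fin.last m) ^ q ^ j := fun d => by
    rw [hr, lin φ hp hq hF]
  rw [prod_congr rfl fun d _ => h1 d, fprod φ hF, psum hp hq]
  congr 1
  refine sum_congr rfl fun j _ => ?_
  rw [mul_pow, pow_succ q j, pow_mul]

theorem coeffs (hp : p.Prime) [CharP L p] (hq : q = p ^ f) (hF : Fintype.card F = q) (m : ℕ) :
    ∀ v : Fin m → L, ∃ r : ℕ → L, r m = 1 ∧
      ∀ x, ∏ c : Fin m → F, (x + ∑ l, φ (c l) * v l) = ∑ j ∈ range (m + 1), r j * x ^ q ^ j := by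
  induction m with
  | zero =>
    intro v
    refine ⟨fun _ => 1, rfl, fun x => ?_⟩
    simp
  | succ m ih =>
    intro v
    obtain ⟨r, hr1, hr⟩ := ih fun l => v l.castSucc
    set y := (∑ j ∈ range (m + 1), r j * v (Fin.last m) ^ q ^ j) ^ (q - 1) with hy
    refine ⟨fun j => (if j = 0 then 0 else r (j - 1) ^ q) - y * (if j < m + 1 then r j else 0),
      ?_, fun x => ?_⟩
    · simp [hr1]
    · rw [step φ hp hq hF v r hr x, ← hy]
      have h1 : ∀ j ∈ range (m + 2), ((if j = 0 then 0 else r (j - 1) ^ q) -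
          y * (if j < m + 1 then r j else 0)) * x ^ q ^ j =
          (if j = 0 then 0 else r (j - 1) ^ q) * x ^ q ^ j -
            y * ((if j < m + 1 then r j else 0) * x ^ q ^ j) := fun j _ => by ring
      have h2 : ∑ j ∈ range (m + 2), (if j = 0 then 0 else r (j - 1) ^ q) * x ^ q ^ j =
          ∑ j ∈ range (m + 1), r j ^ q * x ^ q ^ (j + 1) := by
        rw [sum_range_succ' (fun j => (if j = 0 then 0 else r (j - 1) ^ q) * x ^ q ^ j), if_pos rfl,
          zero_mul, add_zero]
        refine sum_congr rfl fun j _ => ?_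
        rw [if_neg (by omega), Nat.add_sub_cancel]
      have h3 : ∑ j ∈ range (m + 2), (if j < m + 1 then r j else 0) * x ^ q ^ j =
          ∑ j ∈ range (m + 1), r j * x ^ q ^ j := by
        rw [sum_range_succ (fun j => (if j < m + 1 then r j else 0) * x ^ q ^ j),
          if_neg (lt_irrefl _), zero_mul, add_zero]
        refine sum_congr rfl fun j hj => ?_
        rw [if_pos (mem_range.1 hj)]
      rw [sum_congr rfl h1, sum_sub_distrib, ← mul_sum, h2, h3]

end

/-- the relations of `P53`, `R53` -/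
theorem core (φ : F →+* L) [Fintype F] {p f q : ℕ} (hp : p.Prime) [CharP L p]
    (hq : q = p ^ f) (hF : Fintype.card F = q) (s : ℕ) (a b : L) (X : Fin (s + 3) → L)
    (rel : ∀ i, X i ^ q ^ (s + 3) + a * X i ^ q ^ (s + 2) + b * X i ^ q + X i = 0)
    (ind : ∀ c : Fin (s + 3) → F, ∑ i, φ (c i) * X i = 0 → c = 0)
    (Y : Fin (s + 1) → L) (Yt Yp : L)
    (y : ∀ l, Y l = X (mi s l) ^ q - X 0 ^ (q - 1) * X (mi s l))
    (yt : Yt = X (Fin.last (s + 2)) ^ q - X 0 ^ (q - 1) * X (Fin.last (s + 2)))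
    (yp : Yp = ∏ c : Fin (s + 1) → F, (Yt + ∑ l, φ (c l) * Y l)) :
    X 0 ≠ 0 ∧ (∀ l, Y l ≠ 0) ∧ Yp ≠ 0 ∧
  ∃ r : ℕ → L, 1 + Yp ^ (q - 1) * r 0 = 0 ∧
    b - r 0 ^ q + Yp ^ (q - 1) * r 1 = 0 ∧
    (∀ i, 2 ≤ i → i ≤ s + 1 → r (i - 1) ^ q = Yp ^ (q - 1) * r i) ∧
    a - r (s + 1) ^ q + Yp ^ (q - 1) = 0 ∧
    (∀ i, i ≠ Fin.last (s + 2) → X i ^ q ^ (s + 2) + ∑ j ∈ range (s + 2), r j * X i ^ q ^ j = 0) ∧
    X (Fin.last (s + 2)) ^ q ^ (s + 2) +
      ∑ j ∈ range (s + 2), r j * X (Fin.last (s + 2)) ^ q ^ j = Yp := by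
  classical
  have hq1 : 1 < q := by
    rw [← hF]
    exact Fintype.one_lt_card
  obtain ⟨r, hr1, hr⟩ := coeffs φ hp hq hF (s + 2) fun l => X l.castSucc
  have hR : ∀ x, ∑ j ∈ range (s + 2 + 1), r j * x ^ q ^ j =
      x ^ q ^ (s + 2) + ∑ j ∈ range (s + 2), r j * x ^ q ^ j := fun x => by
    rw [sum_range_succ, hr1, one_mul, add_comm]
  -- `R(X_(s+2)) = Yp`
  have hlast : ∑ j ∈ range (s + 2 + 1), r j * X (Fin.last (s + 2)) ^ q ^ j = Yp := by
    rw [← hr, split_first, yp]
    refine prod_congr rfl fun c _ => ?_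
    rw [fprod φ hF, yt]
    have e1 : (0 : Fin (s + 1 + 1)).castSucc = (0 : Fin (s + 3)) := rfl
    rw [e1]
    have e2 : ∀ l : Fin (s + 1), l.succ.castSucc = mi s l := fun l => rfl
    simp only [e2, y]
    have e3 : (X (Fin.last (s + 2)) + ∑ l, φ (c l) * X (mi s l)) ^ q =
        X (Fin.last (s + 2)) ^ q + ∑ l, φ (c l) * X (mi s l) ^ q := by
      rw [frob1 hp hq]
      congr 1
      have h1 : AddMonoidHom.mk' (fun z : L => z ^ q) (frob1 hp hq)
          (∑ l, φ (c l) * X (mi s l)) = ∑ l, φ (c l) * X (mi s l) ^ q := by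
        rw [map_sum]
        refine sum_congr rfl fun l _ => ?_
        show (φ (c l) * X (mi s l)) ^ q = _
        have h2 := fix φ hF 1 (c l)
        rw [pow_one] at h2
        rw [mul_pow, h2]
      exact h1
    have e4 : ∑ l, φ (c l) * (X (mi s l) ^ q - X 0 ^ (q - 1) * X (mi s l)) =
        ∑ l, φ (c l) * X (mi s l) ^ q - X 0 ^ (q - 1) * ∑ l, φ (c l) * X (mi s l) := by
      rw [mul_sum, ← sum_sub_distrib]
      refine sum_congr rfl fun l _ => ?_
      ring
    rw [e3, e4]
    ring
  set w := Yp ^ (q - 1) with hw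
  obtain ⟨e, he⟩ : ∃ e : ℕ → L, e = fun j => if j = 0 then 1 + w * r 0 else
    (if j = 1 then b else 0) + (if j = s + 2 then a else 0) - r (j - 1) ^ q + w * r j := ⟨_, rfl⟩
  have hprod : ∀ x, ∏ c : Fin (s + 3) → F, (x + ∑ l, φ (c l) * X l) =
      ∑ j ∈ range (s + 2 + 1), r j ^ q * x ^ q ^ (j + 1) -
        w * ∑ j ∈ range (s + 2 + 1), r j * x ^ q ^ j := fun x => by
    rw [step φ hp hq hF X r hr x, hlast]
  have hee : ∀ x, ∑ j ∈ range (s + 3), e j * x ^ q ^ j =
      (x ^ q ^ (s + 3) + a * x ^ q ^ (s + 2) + b * x ^ q + x) -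
        ∏ c : Fin (s + 3) → F, (x + ∑ l, φ (c l) * X l) := fun x => by
    rw [hprod]
    have h1 : ∑ j ∈ range (s + 2 + 1), r j ^ q * x ^ q ^ (j + 1) =
        x ^ q ^ (s + 3) + ∑ j ∈ range (s + 2), r j ^ q * x ^ q ^ (j + 1) := by
      rw [sum_range_succ, hr1, one_pow, one_mul, add_comm]
    have h2 : ∑ j ∈ range (s + 2 + 1), r j * x ^ q ^ j =
        ∑ j ∈ range (s + 2), r (j + 1) * x ^ q ^ (j + 1) + r 0 * x := by
      rw [sum_range_succ']
      simp
    have h3 : ∑ j ∈ range (s + 3), e j * x ^ q ^ j =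
        ∑ j ∈ range (s + 2), e (j + 1) * x ^ q ^ (j + 1) + (1 + w * r 0) * x := by
      rw [sum_range_succ', he]
      simp
    have h4 : ∀ j ∈ range (s + 2), e (j + 1) * x ^ q ^ (j + 1) =
        (if j = 0 then b else 0) * x ^ q ^ (j + 1) + (if j = s + 1 then a else 0) * x ^ q ^ (j + 1) -
          r j ^ q * x ^ q ^ (j + 1) + w * (r (j + 1) * x ^ q ^ (j + 1)) := fun j _ => by
      rw [he]
      simp only [Nat.add_eq_zero_iff, one_ne_zero, and_false, if_false, Nat.add_sub_cancel]
      have e1 : (j + 1 = 1) = (j = 0) := by simp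
      have e2 : (j + 1 = s + 2) = (j = s + 1) := by
        apply propext
        omega
      simp only [e1, e2]
      ring
    rw [h3, sum_congr rfl h4, sum_add_distrib, sum_sub_distrib, sum_add_distrib, ← mul_sum, h1, h2]
    have h5 : ∑ j ∈ range (s + 2), (if j = 0 then b else 0) * x ^ q ^ (j + 1) = b * x ^ q := by
      rw [sum_eq_single 0]
      · simp
      · intro j _ hj
        rw [if_neg hj, zero_mul]
      · intro h
        exact absurd (mem_range.2 (by omega)) h
    have h6 : ∑ j ∈ range (s + 2), (if j = s + 1 then a else 0) * x ^ q ^ (j + 1) =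
        a * x ^ q ^ (s + 2) := by
      rw [sum_eq_single (s + 1)]
      · simp
      · intro j _ hj
        rw [if_neg hj, zero_mul]
      · intro h
        exact absurd (mem_range.2 (by omega)) h
    rw [h5, h6]
    ring
  -- the roots
  obtain ⟨ℓ, hℓ⟩ : ∃ ℓ : (Fin (s + 3) → F) → L, ℓ = fun c => ∑ i, φ (c i) * X i := ⟨_, rfl⟩
  have hinj : Function.Injective ℓ := by
    intro c d h
    rw [← sub_eq_zero]
    apply ind
    have e : ∀ i, φ ((c - d) i) * X i = φ (c i) * X i - φ (d i) * X i := fun i => by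
      rw [Pi.sub_apply, map_sub, sub_mul]
    rw [hℓ] at h
    rw [sum_congr rfl fun i _ => e i, sum_sub_distrib]
    exact sub_eq_zero.2 h
  have hE : ∀ c, (ℓ c) ^ q ^ (s + 3) + a * (ℓ c) ^ q ^ (s + 2) + b * (ℓ c) ^ q + ℓ c = 0 := by
    intro c
    have hadd : ∀ x y : L, (fun z : L => z ^ q ^ (s + 3) + a * z ^ q ^ (s + 2) + b * z ^ q + z)
        (x + y) = (fun z : L => z ^ q ^ (s + 3) + a * z ^ q ^ (s + 2) + b * z ^ q + z) x +
        (fun z : L => z ^ q ^ (s + 3) + a * z ^ q ^ (s + 2) + b * z ^ q + z) y := by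
      intro x y
      show (x + y) ^ q ^ (s + 3) + a * (x + y) ^ q ^ (s + 2) + b * (x + y) ^ q + (x + y) = _
      rw [frob hp hq, frob hp hq, frob1 hp hq]
      ring
    have h1 : AddMonoidHom.mk' (fun z : L => z ^ q ^ (s + 3) + a * z ^ q ^ (s + 2) +
        b * z ^ q + z) hadd (ℓ c) = 0 := by
      rw [hℓ]
      simp only []
      rw [map_sum]
      refine sum_eq_zero fun i _ => ?_
      show (φ (c i) * X i) ^ q ^ (s + 3) + a * (φ (c i) * X i) ^ q ^ (s + 2) +
        b * (φ (c i) * X i) ^ q + φ (c i) * X i = 0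
      have h2 := fix φ hF 1 (c i)
      rw [pow_one] at h2
      rw [mul_pow, mul_pow, mul_pow, fix φ hF, fix φ hF, h2]
      linear_combination φ (c i) * rel i
    exact h1
  have hz : ∀ c, ∏ c' : Fin (s + 3) → F, (ℓ c + ∑ l, φ (c' l) * X l) = 0 := by
    intro c
    apply prod_eq_zero (mem_univ (-c))
    rw [hℓ]
    simp only [Pi.neg_apply, map_neg, neg_mul, sum_neg_distrib, add_neg_cancel]
  set D : L[X] := ∑ j ∈ range (s + 3), Polynomial.C (e j) * Polynomial.X ^ q ^ j with hD
  have hev : ∀ x, D.eval x = ∑ j ∈ range (s + 3), e j * x ^ q ^ j := fun x => by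
    rw [hD, Polynomial.eval_finsetSum]
    simp
  have hD0 : D = 0 := by
    refine Polynomial.eq_zero_of_natDegree_lt_card_of_eval_eq_zero D hinj ?_ ?_
    · intro c
      rw [hev, hee, hE, hz, sub_zero]
    · rw [Fintype.card_fun, Fintype.card_fin, hF]
      have h1 : D.natDegree ≤ q ^ (s + 2) := by
        rw [hD]
        refine Polynomial.natDegree_sum_le_of_forall_le _ _ fun i hi => ?_
        refine (Polynomial.natDegree_C_mul_X_pow_le _ _).trans ?_
        exact Nat.pow_le_pow_right (by omega) (by have := mem_range.1 hi; omega)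
      exact lt_of_le_of_lt h1 (Nat.pow_lt_pow_right hq1 (by omega))
  have he0 : ∀ j, j < s + 3 → e j = 0 := by
    intro j hj
    have h1 : D.coeff (q ^ j) = e j := by
      rw [hD, Polynomial.finsetSum_coeff, sum_eq_single j]
      · rw [Polynomial.coeff_C_mul_X_pow, if_pos rfl]
      · intro i _ hi
        rw [Polynomial.coeff_C_mul_X_pow, if_neg]
        intro h
        exact hi (Nat.pow_right_injective hq1 h).symm
      · intro h
        exact absurd (mem_range.2 hj) h
    rw [← h1, hD0, Polynomial.coeff_zero]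
  have k0 : 1 + w * r 0 = 0 := by
    have h := he0 0 (by omega)
    rw [he] at h
    simpa using h
  have k1 : b - r 0 ^ q + w * r 1 = 0 := by
    have h := he0 1 (by omega)
    rw [he] at h
    simp only [one_ne_zero, if_false, if_true] at h
    rw [if_neg (by omega)] at h
    linear_combination h
  have k2 : ∀ i, 2 ≤ i → i ≤ s + 1 → r (i - 1) ^ q = w * r i := by
    intro i h1 h2
    have h := he0 i (by omega)
    rw [he] at h
    simp only [] at h
    rw [if_neg (by omega), if_neg (by omega), if_neg (by omega)] at h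
    linear_combination -h
  have k3 : a - r (s + 1) ^ q + w = 0 := by
    have h := he0 (s + 2) (by omega)
    rw [he] at h
    simp only [] at h
    rw [if_neg (by omega), if_neg (by omega), hr1] at h
    simp only [if_true] at h
    have e1 : s + 2 - 1 = s + 1 := rfl
    rw [e1] at h
    linear_combination h
  have hYp : Yp ≠ 0 := by
    intro h
    rw [hw, h, zero_pow (by omega)] at k0
    simp at k0
  have hX : ∀ c : Fin (s + 3) → F, c ≠ 0 → ∑ i, φ (c i) * X i ≠ 0 := fun c hc h => hc (ind c h)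
  have hX0 : X 0 ≠ 0 := by
    have h := hX (Pi.single 0 1) (by simp)
    intro h0
    apply h
    apply sum_eq_zero
    intro i _
    by_cases hi : i = 0
    · rw [hi, h0, mul_zero]
    · rw [Pi.single_eq_of_ne hi, map_zero, zero_mul]
  refine ⟨hX0, ?_, hYp, r, k0, k1, k2, k3, ?_, ?_⟩
  · intro l
    rw [y, ← fprod φ hF]
    refine prod_ne_zero_iff.2 fun d _ => ?_
    have hne : mi s l ≠ 0 := by
      intro h
      have := congrArg Fin.val h
      simp [mi] at this
    have h := hX (Pi.single (mi s l) 1 + Pi.single 0 d) (by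
      intro h0
      have := congrFun h0 (mi s l)
      rw [Pi.add_apply, Pi.single_eq_same, Pi.single_eq_of_ne hne, add_zero, Pi.zero_apply] at this
      exact one_ne_zero this)
    have h2 : ∑ i, φ ((Pi.single (mi s l) (1 : F) + Pi.single 0 d : Fin (s + 3) → F) i) * X i =
        X (mi s l) + φ d * X 0 := by
      have h3 : ∀ i, φ ((Pi.single (mi s l) (1 : F) + Pi.single 0 d : Fin (s + 3) → F) i) * X i =
          φ ((Pi.single (mi s l) (1 : F) : Fin (s + 3) → F) i) * X i +
          φ ((Pi.single 0 d : Fin (s + 3) → F) i) * X i := fun i => by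
        rw [Pi.add_apply, map_add, add_mul]
      rw [sum_congr rfl fun i _ => h3 i, sum_add_distrib]
      congr 1
      · rw [sum_eq_single (mi s l)]
        · rw [Pi.single_eq_same, map_one, one_mul]
        · intro i _ hi
          rw [Pi.single_eq_of_ne hi, map_zero, zero_mul]
        · intro h
          exact absurd (mem_univ _) h
      · rw [sum_eq_single 0]
        · rw [Pi.single_eq_same]
        · intro i _ hi
          rw [Pi.single_eq_of_ne hi, map_zero, zero_mul]
        · intro h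
          exact absurd (mem_univ _) h
    rwa [h2] at h
  · intro i hi
    rw [← hR, ← hr]
    obtain ⟨j, rfl⟩ := Fin.exists_castSucc_eq.2 hi
    apply prod_eq_zero (mem_univ (Pi.single j (-1)))
    rw [sum_eq_single j]
    · rw [Pi.single_eq_same, map_neg, map_one, neg_one_mul, add_neg_cancel]
    · intro i _ hi
      rw [Pi.single_eq_of_ne hi, map_zero, zero_mul]
    · intro h
      exact absurd (mem_univ _) h
  · rw [← hR, hlast]

end R53a

end Pool.CND
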