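import Pool.Agent.H37.CTP.Stmts
import Pool.Agent.H22.CTP.R53a

/-!
# Row R53 of the board `ctp`
-/

set_option autoImplicit false

namespace Pool.CND

open Finset Polynomial

theorem r53_thm : S_R53 := by
  intro k F L _ _ _ _ _ _ f q s t X Y Yt Yp h2 hf hq hF hq4 hR hY
  have hL2 : CharP L 2 := charP_of_injective_algebraMap (algebraMap k L).injective 2
  have hneg : ∀ x : L, -x = x := fun x => CharTwo.neg_eq x
  obtain ⟨h0, hl, hp, r, r0, r1, r2, r3, r4, r5⟩ := R53a.core
    ((algebraMap k L).comp (algebraMap F k)) Nat.prime_two hq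
    (by rw [← Nat.card_eq_fintype_card, hF]) s _ _ X hR.rel hR.ind Y Yt Yp hY.y hY.yt hY.yp
  refine ⟨h0, hl, hp, r, ?_, ?_, r2, ?_, r4, r5⟩
  · linear_combination r0 + hneg 1
  · linear_combination r1 - hneg (r 0 ^ q) + hneg (t ^ (q * (q ^ (s + 1) - 2) - 1))
  · linear_combination -r3 - hneg (Yp ^ (q - 1))

end Pool.CND
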